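import Pool.Agent.V11307.RI.Three
import Pool.Agent.V11307.RI.SC

set_option autoImplicit false

/-!
# Integrality of `∑_{k<n} (35k+8) M_k 81^(n-1-k) / (4n (2n+1) C(2n,n))`
-/

namespace Pool.Agent.Results.MP_1a5975_nt.Full

open Finset Nat

/-- `M_k = (4k)!/(k!)^4` -/
def M (k : ℕ) : ℚ := ((4 * k)! : ℚ) / (k ! : ℚ) ^ 4

/-- `S_n = ∑_{k=0}^{n-1} (35k+8) M_k 81^{n-1-k}` -/
def S (n : ℕ) : ℚ := ∑ k ∈ range n, (35 * (k : ℚ) + 8) * M k * 81 ^ (n - 1 - k)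

/-- `a_n` -/
def a (n : ℕ) : ℚ := S n / (4 * (n : ℚ) * (2 * n + 1) * ((2 * n).choose n : ℚ))

open V11307.RI

theorem S_succ (n : ℕ) : S (n + 1) = 81 * S n + (35 * (n : ℚ) + 8) * M n := by
  rw [S, sum_range_succ, S, mul_sum]
  congr 1
  · refine sum_congr rfl fun k hk => ?_
    rw [mem_range] at hk
    have : n + 1 - 1 - k = (n - 1 - k) + 1 := by omega
    rw [this, pow_succ]
    ring
  · simp

/-! ### the WZ identity -/

def g (j k : ℕ) : ℚ :=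
  4 * 3 ^ j * ((3 * j + 4 * k + 2)! : ℚ) * ((2 * k)! : ℚ) /
    (((j + k)! : ℚ) ^ 2 * ((j + 2 * k + 1)! : ℚ) * (k ! : ℚ) ^ 2)

def f (j k : ℕ) : ℚ :=
  (280 * ((j : ℚ) + k) ^ 3 - 252 * ((j : ℚ) + k) ^ 2 * j + 204 * ((j : ℚ) + k) ^ 2 + 96 * ((j : ℚ) + k) * j ^ 2
    - 120 * ((j : ℚ) + k) * j + 32 * ((j : ℚ) + k) - 16 * j ^ 3 + 24 * j ^ 2 - 8 * j) *
    3 ^ j * ((3 * j + 4 * k)! : ℚ) * ((2 * k)! : ℚ) /
    ((3 * j + 4 * k) * (j + 2 * k + 1) * ((j + 2 * k)! : ℚ) * (k ! : ℚ) ^ 2 * ((j + k)! : ℚ) ^ 2)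

theorem wz (j k : ℕ) : g j (k + 1) - 81 * g j k = f j (k + 1) - f (j + 1) k := by
  have e1 : ((3 * j + 4 * (k + 1) + 2)! : ℚ) =
      (3 * j + 4 * k + 6) * ((3 * j + 4 * k + 5) * ((3 * j + 4 * k + 4) * ((3 * j + 4 * k + 3) *
        ((3 * j + 4 * k + 2)! : ℚ)))) := by
    rw [show 3 * j + 4 * (k + 1) + 2 = 3 * j + 4 * k + 2 + 1 + 1 + 1 + 1 by ring, Nat.factorial_succ,
      Nat.factorial_succ, Nat.factorial_succ, Nat.factorial_succ]
    push_cast; ring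
  have e2 : ((3 * j + 4 * (k + 1))! : ℚ) = (3 * j + 4 * k + 4) * ((3 * j + 4 * k + 3) *
        ((3 * j + 4 * k + 2)! : ℚ)) := by
    rw [show 3 * j + 4 * (k + 1) = 3 * j + 4 * k + 2 + 1 + 1 by ring, Nat.factorial_succ, Nat.factorial_succ]
    push_cast; ring
  have e3 : ((3 * (j + 1) + 4 * k)! : ℚ) = (3 * j + 4 * k + 3) * ((3 * j + 4 * k + 2)! : ℚ) := by
    rw [show 3 * (j + 1) + 4 * k = 3 * j + 4 * k + 2 + 1 by ring, Nat.factorial_succ]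
    push_cast; ring
  have e4 : ((2 * (k + 1))! : ℚ) = (2 * k + 2) * ((2 * k + 1) * ((2 * k)! : ℚ)) := by
    rw [show 2 * (k + 1) = 2 * k + 1 + 1 by ring, Nat.factorial_succ, Nat.factorial_succ]; push_cast; ring
  have e5 : ((k + 1)! : ℚ) = (k + 1) * (k ! : ℚ) := by
    rw [Nat.factorial_succ]; push_cast; ring
  have e6 : ((j + (k + 1))! : ℚ) = (j + k + 1) * ((j + k)! : ℚ) := by
    rw [show j + (k + 1) = j + k + 1 by ring, Nat.factorial_succ]; push_cast; ring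
  have e7 : ((j + 1 + k)! : ℚ) = (j + k + 1) * ((j + k)! : ℚ) := by
    rw [show j + 1 + k = j + k + 1 by ring, Nat.factorial_succ]; push_cast; ring
  have e8 : ((j + 2 * (k + 1) + 1)! : ℚ) = (j + 2 * k + 3) * ((j + 2 * k + 2) * ((j + 2 * k + 1)! : ℚ)) := by
    rw [show j + 2 * (k + 1) + 1 = j + 2 * k + 1 + 1 + 1 by ring, Nat.factorial_succ, Nat.factorial_succ]
    push_cast; ring
  have e8b : ((j + 2 * (k + 1))! : ℚ) = (j + 2 * k + 2) * ((j + 2 * k + 1)! : ℚ) := by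
    rw [show j + 2 * (k + 1) = j + 2 * k + 1 + 1 by ring, Nat.factorial_succ]
    push_cast; ring
  have e8c : ((j + 1 + 2 * k)! : ℚ) = ((j + 2 * k + 1)! : ℚ) := by
    rw [show j + 1 + 2 * k = j + 2 * k + 1 by ring]
  unfold g f
  rw [e1, e2, e3, e4, e5, e6, e7, e8, e8b, e8c]
  push_cast
  have n1 : (k ! : ℚ) ≠ 0 := by exact_mod_cast k.factorial_ne_zero
  have n2 : ((j + k)! : ℚ) ≠ 0 := by exact_mod_cast (j + k).factorial_ne_zero
  have n7 : ((j + 2 * k + 1)! : ℚ) ≠ 0 := by exact_mod_cast (j + 2 * k + 1).factorial_ne_zero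
  have n3 : ((j : ℚ) + k + 1) ≠ 0 := by positivity
  have n4 : ((k : ℚ) + 1) ≠ 0 := by positivity
  have n5 : ((j : ℚ) + 2 * k + 2) ≠ 0 := by positivity
  have n6 : ((j : ℚ) + 2 * k + 3) ≠ 0 := by positivity
  have n6' : ((j : ℚ) + 2 * (k + 1) + 1) ≠ 0 := by positivity
  have n6'' : ((j : ℚ) + 1 + 2 * k + 1) ≠ 0 := by positivity
  have n8 : (3 * (j : ℚ) + 4 * (k + 1)) ≠ 0 := by positivity
  have n9 : (3 * ((j : ℚ) + 1) + 4 * k) ≠ 0 := by positivity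
  generalize ((3 * j + 4 * k + 2)! : ℚ) = A
  generalize ((2 * k)! : ℚ) = B
  generalize (k ! : ℚ) = C at *
  generalize ((j + k)! : ℚ) = D at *
  generalize ((j + 2 * k + 1)! : ℚ) = E at *
  rw [pow_succ]
  field_simp
  ring

theorem f_zero {n : ℕ} (hn : 1 ≤ n) : f 0 n = (35 * (n : ℚ) + 8) * M n := by
  have n1 : (n ! : ℚ) ≠ 0 := by exact_mod_cast n.factorial_ne_zero
  have n2 : ((2 * n)! : ℚ) ≠ 0 := by exact_mod_cast (2 * n).factorial_ne_zero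
  have n3 : (n : ℚ) ≠ 0 := by exact_mod_cast (by omega : n ≠ 0)
  have n4 : (2 * (n : ℚ) + 1) ≠ 0 := by positivity
  unfold f M
  simp only [Nat.mul_zero, Nat.zero_add]
  push_cast
  rw [show (3 * (0 : ℚ) + 4 * n) = 4 * n by ring, show ((0 : ℚ) + 2 * n + 1) = 2 * n + 1 by ring,
    show ((0 : ℚ) + n) = n by ring]
  field_simp
  ring_nf

theorem g_f {n : ℕ} (hn : 1 ≤ n) : g n 0 = f n 0 := by
  obtain ⟨m, rfl⟩ : ∃ m, n = m + 1 := ⟨n - 1, by omega⟩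
  have e1 : ((3 * (m + 1) + 4 * 0 + 2)! : ℚ) =
      (3 * m + 5) * ((3 * m + 4) * ((3 * (m + 1) + 4 * 0)! : ℚ)) := by
    rw [Nat.factorial_succ, Nat.factorial_succ]
    push_cast; ring
  have e2 : ((m + 1 + 2 * 0 + 1)! : ℚ) = (m + 2) * ((m + 1 + 2 * 0)! : ℚ) := by
    rw [Nat.factorial_succ]
    push_cast; ring
  unfold g f
  rw [e1, e2]
  have n2 : ((m + 1 + 0)! : ℚ) ≠ 0 := by exact_mod_cast (m + 1 + 0).factorial_ne_zero
  have n7 : ((m + 1 + 2 * 0)! : ℚ) ≠ 0 := by exact_mod_cast (m + 1 + 2 * 0).factorial_ne_zero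
  have n3 : ((m : ℚ) + 2) ≠ 0 := by positivity
  have n3' : ((m : ℚ) + 1 + 2 * 0 + 1) ≠ 0 := by positivity
  have n6 : (3 * ((m : ℚ) + 1) + 4 * 0) ≠ 0 := by positivity
  push_cast
  generalize ((3 * (m + 1) + 4 * 0)! : ℚ) = A
  generalize ((m + 1 + 0)! : ℚ) = D at *
  generalize ((m + 1 + 2 * 0)! : ℚ) = E at *
  field_simp
  ring

theorem S_eq (n : ℕ) : S (n + 1) = ∑ j ∈ range (n + 1), g j (n - j) := by
  refine V11307.RI.closed (m := 81) (f := f) wz (fun n hn => g_f hn) S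
    (fun n => (35 * (n : ℚ) + 8) * M n) ?_ (fun n => by rw [S_succ])
    (fun n hn => f_zero hn) n
  norm_num [S, g, M, Nat.factorial]

/-- the closed form as a sum of integers -/
def u (n : ℕ) : ℕ := ∑ j ∈ range (n + 1), 3 ^ j * ((2 * n + (j + 2 * (n - j)) + 2).choose (2 * n + 1) * (2 * (n - j)).choose (n - j))

theorem g_eq (j k : ℕ) : g j k = 4 * (2 * (j + k : ℕ) + 1) * ((2 * (j + k)).choose (j + k) : ℚ) *
    (3 ^ j * (((2 * (j + k) + (j + 2 * k) + 2).choose (2 * (j + k) + 1) : ℚ) * ((2 * k).choose k : ℚ))) := by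
  rw [Nat.cast_choose ℚ (show j + k ≤ 2 * (j + k) by omega),
    Nat.cast_choose ℚ (show 2 * (j + k) + 1 ≤ 2 * (j + k) + (j + 2 * k) + 2 by omega),
    Nat.cast_choose ℚ (show k ≤ 2 * k by omega), show 2 * k - k = k by omega,
    show 2 * (j + k) - (j + k) = j + k by omega,
    show 2 * (j + k) + (j + 2 * k) + 2 - (2 * (j + k) + 1) = j + 2 * k + 1 by omega,
    show 2 * (j + k) + (j + 2 * k) + 2 = 3 * j + 4 * k + 2 by ring]
  have e1 : ((2 * (j + k) + 1)! : ℚ) = (2 * (j + k) + 1) * ((2 * (j + k))! : ℚ) := by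
    rw [Nat.factorial_succ]; push_cast; ring
  unfold g
  rw [e1]
  have n1 : (k ! : ℚ) ≠ 0 := by exact_mod_cast k.factorial_ne_zero
  have n2 : ((j + k)! : ℚ) ≠ 0 := by exact_mod_cast (j + k).factorial_ne_zero
  have n7 : ((2 * (j + k))! : ℚ) ≠ 0 := by exact_mod_cast (2 * (j + k)).factorial_ne_zero
  have n10 : ((j + 2 * k + 1)! : ℚ) ≠ 0 := by exact_mod_cast (j + 2 * k + 1).factorial_ne_zero
  have n3 : (2 * ((j : ℚ) + k) + 1) ≠ 0 := by positivity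
  push_cast
  field_simp

theorem S_closed (n : ℕ) : S (n + 1) = 4 * ((2 * (n : ℚ) + 1) * ((2 * n).choose n : ℚ)) * (u n : ℚ) := by
  rw [S_eq, u]
  push_cast
  rw [mul_sum]
  refine sum_congr rfl fun j hj => ?_
  rw [mem_range] at hj
  obtain ⟨k, rfl⟩ : ∃ k, n = j + k := ⟨n - j, by omega⟩
  rw [show j + k - j = k by omega, g_eq]
  push_cast
  ring

theorem even_top (m : ℕ) : 2 ∣ (3 * m + 2).choose (m + 1) := by
  have h3 : (3 * m + 3) * (3 * m + 2).choose (m + 1) = (2 * m + 2) * (3 * m + 3).choose (m + 1) := by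
    have h4 := Nat.choose_mul_succ_eq (3 * m + 2) (m + 1)
    rw [show 3 * m + 2 + 1 - (m + 1) = 2 * m + 2 by omega] at h4
    linarith
  have h5 : 3 * (3 * m + 2).choose (m + 1) = 2 * (3 * m + 3).choose (m + 1) := by
    have : (m + 1) * (3 * (3 * m + 2).choose (m + 1)) = (m + 1) * (2 * (3 * m + 3).choose (m + 1)) := by
      linarith
    exact Nat.eq_of_mul_eq_mul_left (by omega) this
  have h6 : Nat.Coprime 2 3 := by norm_num
  exact h6.dvd_of_dvd_mul_left (Dvd.intro _ h5.symm)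

theorem even_u (n : ℕ) : 2 ∣ u n := by
  refine dvd_sum fun j hj => ?_
  rw [mem_range] at hj
  refine Dvd.dvd.mul_left ?_ _
  rcases Nat.lt_or_ge j n with h | h
  · exact Dvd.dvd.mul_left (V11307.RI.two_dvd (by omega)) _
  · have : j = n := by omega
    subst this
    refine Dvd.dvd.mul_right ?_ _
    rw [Nat.sub_self, Nat.mul_zero, show 2 * j + (j + 0) + 2 = 3 * j + 2 by ring]
    have h := even_top j
    rwa [← Nat.choose_symm_of_eq_add (show 3 * j + 2 = 2 * j + 1 + (j + 1) by ring)] at h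

/-- the integer sums -/
def Z (n : ℕ) : ℤ := ∑ k ∈ range n, (35 * (k : ℤ) + 8) * c4 k * 81 ^ (n - 1 - k)

theorem M_eq (k : ℕ) : M k = (c4 k : ℚ) := M_mul k

theorem S_Z (n : ℕ) : S n = (Z n : ℚ) := by
  unfold S Z
  push_cast
  exact sum_congr rfl fun k _ => by rw [M_eq]

theorem Z_succ (n : ℕ) : Z (n + 1) = 81 * Z n + (35 * (n : ℤ) + 8) * c4 n := by
  have h := S_succ n
  rw [S_Z, S_Z, M_eq] at h
  exact_mod_cast h

theorem Z_closed (n : ℕ) : Z (n + 1) = 4 * ((2 * (n : ℤ) + 1) * ((2 * n).choose n : ℤ)) * (u n : ℤ) := by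
  have h := S_closed n
  rw [S_Z] at h
  exact_mod_cast h

theorem dvd_Z (n : ℕ) : ((8 * D n : ℕ) : ℤ) ∣ 3 ^ 4 * Z (n + 1) := by
  obtain ⟨T, hT⟩ := even_u n
  obtain ⟨T', hT'⟩ := even_u (n + 1)
  have h1 := Z_succ (n + 1)
  rw [Z_closed, Z_closed, hT, hT'] at h1
  obtain ⟨w, hw⟩ := V11307.RI.catalan (n + 1)
  unfold c4 at h1
  rw [hw] at h1
  have hc : ((n : ℤ) + 1) * ((2 * (n + 1)).choose (n + 1) : ℤ) = 2 * (2 * n + 1) * ((2 * n).choose n : ℤ) := by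
    exact_mod_cast central n
  have hpos : ((2 * (n + 1)).choose (n + 1) : ℤ) ≠ 0 := by exact_mod_cast (choose_pos' (n + 1)).ne'
  push_cast at h1
  have h4 : 8 * (2 * (n : ℤ) + 3) * (T' : ℤ) = 324 * (n + 1) * (T : ℤ) +
      (2 * n + 3) * ((35 * n + 43) * (w : ℤ) * ((2 * (n + 1)).choose (n + 1) : ℤ)) := by
    apply mul_left_cancel₀ hpos
    linear_combination h1 - 324 * (T : ℤ) * hc
  have h6 : (2 * (n : ℤ) + 3) ∣ (4 * (n + 1)) * (81 * T) :=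
    ⟨8 * T' - (35 * n + 43) * (w : ℤ) * ((2 * (n + 1)).choose (n + 1) : ℤ), by linear_combination -h4⟩
  have h7 : IsCoprime (2 * (n : ℤ) + 3) (4 * (n + 1)) := by
    have e1 : IsCoprime (2 * (n : ℤ) + 3) (n + 1) := ⟨1, -2, by ring⟩
    have e2 : IsCoprime (2 * (n : ℤ) + 3) 2 := ⟨1, -(n + 1), by ring⟩
    have e3 : IsCoprime (2 * (n : ℤ) + 3) (2 ^ 2) := e2.pow_right
    rw [show (4 : ℤ) = 2 ^ 2 by norm_num]
    exact e3.mul_right e1
  obtain ⟨z, hz⟩ := h7.dvd_of_dvd_mul_left h6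
  refine ⟨z, ?_⟩
  rw [Z_closed, hT]
  unfold D
  push_cast
  linear_combination 8 * (2 * (n : ℤ) + 1) * ((2 * n).choose n : ℤ) * hz

/-- **Full answer.** -/
theorem result : ∀ n : ℕ, 1 ≤ n →
    ((¬ ∃ m : ℕ, 1 ≤ m ∧ 2 * n + 1 = 3 ^ m) → ∃ z : ℤ, a n = z) ∧
    ((∃ m : ℕ, 1 ≤ m ∧ 2 * n + 1 = 3 ^ m) → ∃ z : ℤ, 3 * a n = z ∧ ¬ 3 ∣ z) := by
  intro n hn
  obtain ⟨K, rfl⟩ : ∃ K, n = K + 1 := ⟨n - 1, by omega⟩
  have hD := D_eq K
  have hq : a (K + 1) * ((8 * D K : ℕ) : ℚ) = Z (K + 1) := by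
    have hpos : (((K + 1) * (2 * (K + 1) + 1) * (2 * (K + 1)).choose (K + 1) : ℕ) : ℚ) ≠ 0 := by
      have := choose_pos' (K + 1)
      exact_mod_cast Nat.mul_ne_zero (by positivity) this.ne'
    have h2 : ((8 * D K : ℕ) : ℚ) = 4 * (((K + 1) * (2 * (K + 1) + 1) * (2 * (K + 1)).choose (K + 1) : ℕ) : ℚ) := by
      rw [hD]; push_cast; ring
    rw [h2, a, ← S_Z]
    have hC : ((2 * (K + 1)).choose (K + 1) : ℚ) ≠ 0 := by exact_mod_cast (choose_pos' (K + 1)).ne'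
    push_cast
    field_simp
  obtain ⟨h1, h2⟩ := final_q good3_c4 (m := 81) (a := 35) (b := 8) (by norm_num) (by norm_num) (S := Z) (by simp [Z])
    Z_succ (κ := 8) (by norm_num) (K := K) (e := 4) (dvd_Z K) hq
  refine ⟨fun h => h1 fun t ht => ?_, fun ⟨t, _, ht⟩ => h2 t (by omega)⟩
  refine h ⟨t, ?_, by omega⟩
  by_contra hh
  have : t = 0 := by omega
  rw [this] at ht
  omega

end Pool.Agent.Results.MP_1a5975_nt.Full
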